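import Pool.Agent.Helper63.P705.NUM.Goals

/-!
# MP_705522_gt: goal N7 (Horner scheme in packed form)
-/

namespace Pool.Agent.Helper89.P705

open Pool.Agent.Helper63.P705

/-- one Horner step modulo `TM` -/
theorem lp_modEq (TM z : ℕ) (hTM : 0 < TM) (f : ℕ → ℕ) (n : ℕ) : ∀ acc : ℕ, acc < TM →
    lp n (fun j acc => (f j + (TM - acc) * z) % TM) acc < TM ∧
    ((lp n (fun j acc => (f j + (TM - acc) * z) % TM) acc : ℕ) : ℤ) ≡
      (∑ j ∈ Finset.range n, (-1) ^ j * (f j : ℤ) * (z : ℤ) ^ j) + (-1) ^ n * (z : ℤ) ^ n * acc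
      [ZMOD (TM : ℤ)] := by
  induction n with
  | zero =>
    intro acc hacc
    refine ⟨hacc, ?_⟩
    simp only [lp_zero, Finset.range_zero, Finset.sum_empty, pow_zero, one_mul, zero_add]
    exact Int.ModEq.refl _
  | succ n ih =>
    intro acc hacc
    rw [lp_succ]
    have h1 : (f n + (TM - acc) * z) % TM < TM := Nat.mod_lt _ hTM
    refine ⟨(ih _ h1).1, (ih _ h1).2.trans ?_⟩
    have h2 : (((f n + (TM - acc) * z) % TM : ℕ) : ℤ) ≡ (f n : ℤ) - acc * z [ZMOD (TM : ℤ)] := by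
      rw [Int.natCast_mod, Nat.cast_add, Nat.cast_mul, Nat.cast_sub hacc.le]
      refine (Int.mod_modEq _ _).trans ?_
      refine (Int.modEq_iff_dvd).2 ⟨-z, ?_⟩
      ring
    rw [Finset.sum_range_succ]
    have h3 := h2.mul_left ((-1) ^ n * (z : ℤ) ^ n)
    refine (h3.add_left _).trans ?_
    refine Int.ModEq.trans (Int.ModEq.refl _) ?_
    have h4 : (∑ j ∈ Finset.range n, (-1) ^ j * (f j : ℤ) * (z : ℤ) ^ j) +
        (-1) ^ n * (z : ℤ) ^ n * ((f n : ℤ) - acc * z) =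
        (∑ j ∈ Finset.range n, (-1) ^ j * (f j : ℤ) * (z : ℤ) ^ j) + (-1) ^ n * (f n : ℤ) * (z : ℤ) ^ n
          + (-1) ^ (n + 1) * (z : ℤ) ^ (n + 1) * acc := by
      ring
    rw [h4]

/-- binomial theorem modulo the power `B ^ k` -/
theorem pow_modEq (b B k j N : ℕ) (hN : j < N) :
    (((b + B : ℕ) : ℤ)) ^ j ≡
      ∑ i ∈ Finset.range k, (j.choose i : ℤ) * (b : ℤ) ^ (j - i) * (B : ℤ) ^ i [ZMOD ((B : ℤ) ^ k)] := by
  have h1 : (((b + B : ℕ) : ℤ)) ^ j =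
      ∑ i ∈ Finset.range (k + N), (j.choose i : ℤ) * (b : ℤ) ^ (j - i) * (B : ℤ) ^ i := by
    rw [Nat.cast_add, add_comm, add_pow]
    rw [← Finset.sum_subset (s₁ := Finset.range (j + 1)) (s₂ := Finset.range (k + N))]
    · apply Finset.sum_congr rfl
      intro i _
      ring
    · intro i hi
      rw [Finset.mem_range] at hi ⊢
      omega
    · intro i _ hi
      rw [Finset.mem_range] at hi
      rw [Nat.choose_eq_zero_of_lt (by omega)]
      simp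
  rw [h1, Finset.sum_range_add]
  refine (Int.modEq_iff_dvd).2 ?_
  refine ⟨-∑ i ∈ Finset.range N, (j.choose (k + i) : ℤ) * (b : ℤ) ^ (j - (k + i)) * (B : ℤ) ^ i, ?_⟩
  rw [mul_neg, Finset.mul_sum]
  have h2 : ∑ i ∈ Finset.range N, (B : ℤ) ^ k * ((j.choose (k + i) : ℤ) * (b : ℤ) ^ (j - (k + i)) * (B : ℤ) ^ i) =
      ∑ x ∈ Finset.range N, (j.choose (k + x) : ℤ) * (b : ℤ) ^ (j - (k + x)) * (B : ℤ) ^ (k + x) := by
    apply Finset.sum_congr rfl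
    intro i _
    rw [pow_add]
    ring
  rw [h2]
  ring

/-- the step of `horn` -/
theorem step_eq (F z e p acc : ℕ) :
    Nat.land (Nat.add (Nat.shiftLeft F e) (Nat.mul (Nat.sub (Nat.shiftLeft 1 p) acc) z))
      (Nat.sub (Nat.shiftLeft 1 p) 1) = (F * 2 ^ e + (2 ^ p - acc) * z) % 2 ^ p := by
  have h1 : Nat.shiftLeft 1 p = 2 ^ p := Nat.one_shiftLeft p
  rw [h1]
  have h4 : Nat.shiftLeft F e = F * 2 ^ e := Nat.shiftLeft_eq F e
  rw [h4]
  exact Nat.and_two_pow_sub_one_eq_mod _ p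

/-- generic form of `horn` -/
def hornG (A b J w p : ℕ) : ℕ :=
  lp (Nat.succ J) (fun j acc => Nat.land (Nat.add (Nat.shiftLeft (fld A 160 j)
    (Nat.mul 7 (Nat.sub J j))) (Nat.mul (Nat.sub (Nat.shiftLeft 1 p) acc) (Nat.add b (Nat.shiftLeft 1 w))))
      (Nat.sub (Nat.shiftLeft 1 p) 1)) 0

theorem hornG_eq (A b J w p : ℕ) : hornG A b J w p =
    lp (J + 1) (fun j acc => (fld A 160 j * 2 ^ (7 * (J - j)) + (2 ^ p - acc) * (b + 2 ^ w)) % 2 ^ p) 0 := by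
  unfold hornG
  have h2 : Nat.shiftLeft 1 w = 2 ^ w := Nat.one_shiftLeft w
  have h : (fun j acc => Nat.land (Nat.add (Nat.shiftLeft (fld A 160 j)
    (Nat.mul 7 (Nat.sub J j))) (Nat.mul (Nat.sub (Nat.shiftLeft 1 p) acc) (Nat.add b (Nat.shiftLeft 1 w))))
      (Nat.sub (Nat.shiftLeft 1 p) 1)) = (fun j acc => (fld A 160 j * 2 ^ (7 * (J - j)) +
        (2 ^ p - acc) * (b + 2 ^ w)) % 2 ^ p) := by
    funext j acc
    rw [step_eq, h2]
    rfl
  rw [h]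

theorem horn_hornG (A b J : ℕ) : horn A b J = hornG A b J 1024 18432 := by
  unfold horn hornG
  rw [sq_eq, sq_eq, sq_eq]

theorem main (A : ℕ → ℕ) (b B J k : ℕ) (hB : 0 < B) :
    ((lp (J + 1) (fun j acc => (A j * 2 ^ (7 * (J - j)) + (B ^ k - acc) * (b + B)) % B ^ k) 0 : ℕ) : ℤ) =
    (∑ i ∈ Finset.range k, cI A b J i * (B : ℤ) ^ i) % (B : ℤ) ^ k := by
  obtain ⟨h1, h2⟩ := lp_modEq (B ^ k) (b + B) (pow_pos hB k) (fun j => A j * 2 ^ (7 * (J - j))) (J + 1) 0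
    (pow_pos hB k)
  have h3 : ((lp (J + 1) (fun j acc => (A j * 2 ^ (7 * (J - j)) + (B ^ k - acc) * (b + B)) % B ^ k) 0 : ℕ) : ℤ) =
      ((lp (J + 1) (fun j acc => (A j * 2 ^ (7 * (J - j)) + (B ^ k - acc) * (b + B)) % B ^ k) 0 : ℕ) : ℤ) % (B : ℤ) ^ k := by
    rw [Int.emod_eq_of_lt (by positivity)]
    exact_mod_cast h1
  rw [h3]
  have h4 : ((B ^ k : ℕ) : ℤ) = (B : ℤ) ^ k := by push_cast; rfl
  rw [h4] at h2
  refine h2.trans ?_
  have h5 : (∑ j ∈ Finset.range (J + 1), (-1) ^ j * ((A j * 2 ^ (7 * (J - j)) : ℕ) : ℤ) * (((b + B : ℕ) : ℤ)) ^ j) ≡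
      ∑ j ∈ Finset.range (J + 1), (-1) ^ j * ((A j * 2 ^ (7 * (J - j)) : ℕ) : ℤ) *
        (∑ i ∈ Finset.range k, (j.choose i : ℤ) * (b : ℤ) ^ (j - i) * (B : ℤ) ^ i) [ZMOD ((B : ℤ) ^ k)] := by
    apply Int.ModEq.sum
    intro j hj
    exact (pow_modEq b B k j (J + 1) (Finset.mem_range.1 hj)).mul_left _
  have h6 : ((-1 : ℤ) ^ (J + 1) * ((b + B : ℕ) : ℤ) ^ (J + 1) * ((0 : ℕ) : ℤ)) = 0 := by simp
  rw [h6, add_zero]
  refine h5.trans ?_
  have h7 : (∑ j ∈ Finset.range (J + 1), (-1) ^ j * ((A j * 2 ^ (7 * (J - j)) : ℕ) : ℤ) *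
        (∑ i ∈ Finset.range k, (j.choose i : ℤ) * (b : ℤ) ^ (j - i) * (B : ℤ) ^ i)) =
      ∑ i ∈ Finset.range k, cI A b J i * (B : ℤ) ^ i := by
    simp only [cI, Finset.mul_sum, Finset.sum_mul]
    rw [Finset.sum_comm]
    apply Finset.sum_congr rfl
    intro i _
    apply Finset.sum_congr rfl
    intro j _
    push_cast
    ring
  rw [h7]

/-- the statement with generic widths -/
theorem mainG (A b J w k p : ℕ) (hp : p = w * k) :
    (hornG A b J w p : ℤ) = (∑ i ∈ Finset.range k, cI (fun j => fld A 160 j) b J i * 2 ^ (w * i)) % 2 ^ p := by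
  subst hp
  have h := main (fun j => fld A 160 j) b (2 ^ w) J k (by positivity)
  have e1 : ((2 : ℕ) ^ w) ^ k = 2 ^ (w * k) := by rw [← pow_mul]
  have e3 : ∀ i : ℕ, (((2 ^ w : ℕ) : ℤ)) ^ i = 2 ^ (w * i) := fun i => by
    rw [Nat.cast_pow, Nat.cast_ofNat, ← pow_mul]
  rw [e1] at h
  simp only [e3] at h
  rw [hornG_eq, h]

theorem n7 : Pool.Agent.Helper63.P705.N7 := by
  intro A b J _
  rw [horn_hornG]
  exact mainG A b J 1024 18 18432 rfl

end Pool.Agent.Helper89.P705
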